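import Pool.Agent.Q24.SG.WDef

/-!
# The flag complex inequality with Coxeter edge weights up to the number of bad faces

Let the flag complex `S` of the finite graph `G` be a real homology sphere of dimension `2 m + 1`, with edge weights
`w e ≥ 2`. A face `T` is heavy if each of its vertices lies in an edge of weight at least `3` inside `T`; if all
weights are `2` there is no nonempty heavy face. The numbers `N σ` are the orders of the Coxeter groups `W_σ`, or any
numbers with the properties in the structure `Orders`.

The inequality `(-1)^(m+1) ∑ (-1)^|σ| / #W_σ ≥ 0` is known for `S` in certain classes of good complexes. Here the set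
`Q` of the bad vertices of `S` is arbitrary and we bound the failure of the inequality: for any linear order of the
vertices, with an initial segment `P` which spans a member of the class `AR (2 m + 2)`, such that the full
subcomplex on the smaller neighbours of each vertex outside `P` and `Q` is in the class `AR (2 m + 1)`, the left hand
side is at least `- ∑ c_i / 2^(i-1)`, the sum over `i = m + 2, m + 4, …`, where `c_i` is the number of the faces with
`i` vertices whose largest vertex is in `Q`. (If all vertices outside `Q` have links in the class `AR (2 m + 1)` and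
the vertices of `Q` come first, then `c_i` is the number of the faces with `i` vertices in `Q`.) In the right-angled
case there is no other condition; in general the links of the nonempty heavy faces have to be in the class `AR`.
-/

set_option autoImplicit false

namespace Pool.Agent.Results.MP_375bfa_co.DefectOfBadCliques

open Pool.Agent.W907.SG Pool.Agent.TH652.Above Pool.Agent.Q24.SG Pool.Agent.W497.FS Pool.Agent.Q288.CW

/-- the number of the cliques of `G` with `i` elements whose largest element is in `Q` -/
noncomputable def badCliques {V : Type} [LinearOrder V] (G : SimpleGraph V) (Q : Set V) (i : ℕ) : ℕ :=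
  {T : Finset V | G.IsClique (T : Set V) ∧ T.card = i ∧ ∃ v ∈ T, v ∈ Q ∧ ∀ u ∈ T, u ≤ v}.ncard

theorem pnum_eq {V : Type} [LinearOrder V] (G : SimpleGraph V) (Q : Set V) (i : ℕ) :
    pnum G Q Set.univ i = badCliques G Q i := by
  unfold pnum badCliques
  congr 1
  ext T
  exact ⟨fun h => ⟨h.1, h.2.2⟩, fun h => ⟨h.1, Set.subset_univ _, h.2⟩⟩

/-- Let the flag complex of `G` be a real homology `(2 m + 1)`-sphere with edge weights such that the link of every
nonempty heavy face `T` of even size `2 m + 2 - 2 l` is in the class `AR (2 l)` (no condition if all weights are `2`).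
Let `P` be an initial segment of the ordered vertex set which spans a subcomplex in the class `AR (2 m + 2)` (for
example `P = ∅`), and `Q` a set of vertices such that for every vertex `v` outside `P` and `Q` the full subcomplex on
the neighbours `u < v` of `v` is in the class `AR (2 m + 1)`. Let `c_i` be the number of the faces with `i` vertices
whose largest vertex is in `Q`. Then
`- ∑_(k ≤ m, k even) 2 c_(m+2+k) / 2^(m+2+k) ≤ (-1)^(m+1) ∑ (-1)^|σ| / 2^|σ| ≤ (-1)^(m+1) ∑ (-1)^|σ| / #W_σ`,
the sums over all faces `σ`, the empty one included. -/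
theorem result : ∀ (m : ℕ) (V : Type) [Fintype V] [LinearOrder V] (G : SimpleGraph V), HSph (2 * m + 2) G →
    ∀ P Q : Set V, (∀ a ∈ P, ∀ b, b ≤ a → b ∈ P) → AR (2 * m + 2) (G.induce P) →
    (∀ v, v ∉ P → v ∉ Q → AR (2 * m + 1) (G.induce {u | u < v ∧ G.Adj v u})) →
    ∀ (w : Finset V → ℕ) (N : Finset V → ℚ), Orders (cl G Finset.univ) w N →
    (∀ T : Finset V, T.Nonempty → G.IsClique (T : Set V) → Heavy w T → ∀ l, 2 * l + T.card = 2 * m + 2 →
      AR (2 * l) (G.induce {u | ∀ t ∈ T, G.Adj t u})) →
    - ∑ k ∈ (Finset.range (m + 1)).filter Even, (2 * ((badCliques G Q (m + 2 + k) : ℚ) / 2 ^ (m + 2 + k))) ≤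
      (-1) ^ (m + 1) * ∑ σ ∈ cl G Finset.univ, (-1 : ℚ) ^ σ.card / 2 ^ σ.card ∧
    (-1) ^ (m + 1) * ∑ σ ∈ cl G Finset.univ, (-1 : ℚ) ^ σ.card / 2 ^ σ.card ≤
      (-1) ^ (m + 1) * ∑ σ ∈ cl G Finset.univ, (-1) ^ σ.card / N σ := by
  intro m V _ _ G hS P Q h1 h2 h3 w N hN hA
  have h4 := weighted_defect hS (hyp_AR h1 h2 h3) w N hN hA
  simp only [pnum_eq] at h4
  exact h4

end Pool.Agent.Results.MP_375bfa_co.DefectOfBadCliques
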