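import Pool.Agent.Q288.CW.Red
import Pool.Agent.TH709.GG.Sph8

set_option autoImplicit false

/-!
# The flag complex inequality with Coxeter edge weights and vertices from which no tetrahedron is far

A face of a complex is far from a vertex `v` if none of its vertices is `v` or joined to `v` by an
edge. A face is heavy if each of its vertices lies in an edge of weight at least `3` inside the face
(the empty face is heavy). Suppose that the links of the faces with `2 m - 4` vertices of the flag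
homology `(2 m - 1)`-sphere `S` satisfy `f₁ - 5 f₀ + 16 ≥ 0`, as they do by the theorem of Davis and
Okun.

1. Let `P` be a set of pairs `(F, T)`, `T` a face of the link of `F`, such that for each pair in `P`
   with `|F| ≤ 2 m - 5` (`|F| ≤ 2 m - 6` if `T = ∅`) there is a vertex `v` with `T ∪ {v}` in the link
   of `F` such that no face with four vertices of the link is far from `v`, and `P` contains the pair
   `(F ∪ {v}, T)` if `v ∉ T` and, unless `T = ∅` and `|F| = 2 m - 7`, the pairs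
   `(F ∪ E, T ∩ lk (F ∪ E))` for the edges `E` of the link far from `v` and
   `(F ∪ R \ {t}, {t} ∪ (T ∩ lk (F ∪ R)))` for the vertices `t` of the triangles `R` far from `v`.
   If `P` contains the pairs `(F, ∅)` for the heavy faces `F` of even size, then
   `(-1)^m ∑ (-1)^|σ| / N σ ≥ (-1)^m ∑ (-1)^|σ| / 2^|σ| ≥ 0`.
2. For `m = 3` the criterion asks for one vertex only, whatever the weights are: the inequalities hold
   for all weights on the flag homology 5-spheres which have a vertex from which no tetrahedron is far.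
-/

namespace Pool.Agent.Results.MP_375bfa_co.FarTetrahedraWeighted

open Pool.Agent.W497.FS Pool.Agent.TH709.GG.F3 Pool.Agent.Q288.CW

/-- the Charney-Davis quantity and the last entry of the gamma-vector -/
theorem omega_of_gamma {n l : ℕ} {S : Finset (Finset (Fin n))} {γ : ℕ → ℤ}
    (h : IsGamma (2 * l) S γ) (hle : ∀ F ∈ S, F.card ≤ 2 * l) :
    4 ^ l * ((-1) ^ l * Pool.Agent.W497.FS.omega S) = (γ l : ℚ) := by
  have h1 := congrArg (fun p => Polynomial.eval₂ (Int.castRingHom ℚ) (-1) p) h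
  simp only [Polynomial.eval₂_finsetSum, Polynomial.eval₂_mul, Polynomial.eval₂_pow,
    Polynomial.eval₂_C, Polynomial.eval₂_X, Polynomial.eval₂_sub, Polynomial.eval₂_add,
    Polynomial.eval₂_one] at h1
  simp only [eq_intCast, Int.cast_natCast] at h1
  have e1 : (1 : ℚ) + -1 = 0 := by norm_num
  have e2 : (1 : ℚ) - -1 = 2 := by norm_num
  rw [e1, e2] at h1
  have h2 : ∑ i ∈ Finset.range (2 * l / 2 + 1), (γ i : ℚ) * (-1) ^ i * 0 ^ (2 * l - 2 * i) =
      (γ l : ℚ) * (-1) ^ l := by
    rw [Finset.sum_eq_single l]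
    · simp
    · intro i hi hil
      rw [Finset.mem_range] at hi
      have : 2 * l - 2 * i ≠ 0 := by omega
      rw [zero_pow this, mul_zero]
    · intro hl
      exact absurd (Finset.mem_range.2 (by omega)) hl
  rw [h2] at h1
  have h3 : ∑ j ∈ Finset.range (2 * l + 1),
      (((S.filter (fun G => G.card = j)).card : ℕ) : ℚ) * (-1) ^ j * 2 ^ (2 * l - j) =
      2 ^ (2 * l) * Pool.Agent.W497.FS.omega S := by
    unfold Pool.Agent.W497.FS.omega
    have hm : ∀ σ ∈ S, σ.card ∈ Finset.range (2 * l + 1) := fun σ hσ => by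
      rw [Finset.mem_range]
      have := hle σ hσ
      omega
    rw [← Finset.sum_fiberwise_of_maps_to hm, Finset.mul_sum]
    refine Finset.sum_congr rfl fun j hj => ?_
    rw [Finset.mem_range] at hj
    have h4 : ∀ σ ∈ S.filter (fun G => G.card = j), (-1 : ℚ) ^ σ.card / 2 ^ σ.card =
        (-1) ^ j / 2 ^ j := fun σ hσ => by rw [(Finset.mem_filter.1 hσ).2]
    rw [Finset.sum_congr rfl h4, Finset.sum_const, nsmul_eq_mul]
    have h5 : (2 : ℚ) ^ (2 * l) = 2 ^ (2 * l - j) * 2 ^ j := by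
      rw [← pow_add]
      congr 1
      omega
    rw [h5]
    field_simp
  rw [h3] at h1
  have h6 : (4 : ℚ) ^ l = 2 ^ (2 * l) := by
    rw [pow_mul]; norm_num
  have h7 : ((-1 : ℚ) ^ l) * (-1) ^ l = 1 := by
    rw [← mul_pow]; norm_num
  rw [h6]
  calc (2 : ℚ) ^ (2 * l) * ((-1) ^ l * Pool.Agent.W497.FS.omega S)
      = (-1) ^ l * (2 ^ (2 * l) * Pool.Agent.W497.FS.omega S) := by ring
    _ = (-1) ^ l * ((γ l : ℚ) * (-1) ^ l) := by rw [h1]
    _ = (γ l : ℚ) * ((-1) ^ l * (-1) ^ l) := by ring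
    _ = _ := by rw [h7, mul_one]

theorem link_empty {n : ℕ} {S : Finset (Finset (Fin n))} : link S ∅ = S := by
  ext G
  rw [link, Finset.mem_filter]
  simp

/-- the general criterion -/
theorem criterion (k : Type) [Field k] (n m : ℕ) (S : Finset (Finset (Fin n)))
    (hS : IsFlagSphere k (2 * m) S)
    (h4 : ∀ F ∈ S, F.card + 4 = 2 * m → 5 * ((link S F).filter (fun G => G.card = 1)).card ≤
      ((link S F).filter (fun G => G.card = 2)).card + 16)
    (w : Finset (Fin n) → ℕ) (N : Finset (Fin n) → ℚ) (hN : Orders S w N)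
    (P : Finset (Fin n) → Finset (Fin n) → Prop)
    (hP : ∀ F ∈ S, ∀ T ∈ link S F, P F T → F.card + 5 ≤ 2 * m →
      (T = ∅ → F.card + 6 ≤ 2 * m) →
      ∃ v, insert v T ∈ link S F ∧ (∀ G, IsFar (link S F) v G → G.card ≤ 3) ∧
        (v ∉ T → P (insert v F) T) ∧ ((T = ∅ → F.card + 7 ≠ 2 * m) →
        (∀ E, IsFar (link S F) v E → E.card = 2 →
          P (F ∪ E) (T.filter (fun x => insert x (F ∪ E) ∈ S))) ∧
        (∀ R, IsFar (link S F) v R → R.card = 3 → ∀ t ∈ R,
          P (F ∪ R.erase t) (insert t (T.filter (fun x => insert x (F ∪ R) ∈ S))))))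
    (hheavy : ∀ F ∈ S, Even F.card → Heavy w F → P F ∅) :
    0 ≤ (-1) ^ m * ∑ σ ∈ S, (-1 : ℚ) ^ σ.card / 2 ^ σ.card ∧
    (-1) ^ m * ∑ σ ∈ S, (-1 : ℚ) ^ σ.card / 2 ^ σ.card ≤
      (-1) ^ m * ∑ σ ∈ S, (-1) ^ σ.card / N σ := by
  classical
  have hempty : (∅ : Finset (Fin n)) ∈ S := by
    rw [← hS.cl_eq]; exact empty_mem_cl
  have hex := exists_g hS
  let g : Finset (Fin n) → ℕ → ℤ := fun F => if h : F ∈ S then (hex F h).choose else 0
  have hg : ∀ F ∈ S, IsGamma (2 * m - F.card) (link S F) (g F) ∧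
      ∀ i, 2 * m < 2 * i + F.card → g F i = 0 := by
    intro F hF
    have hgF : g F = (hex F hF).choose := by
      simp only [g]
      rw [dif_pos hF]
    rw [hgF]
    exact (hex F hF).choose_spec
  have hQ := sphereQ hS hg h4 P (fun F hF T hT h1 h2 h3 => Or.inr (hP F hF T hT h1 h2 h3))
  have hcd : ∀ T ∈ S, Heavy w T → ∀ j l, T.card = 2 * j → m = j + l →
      0 ≤ (-1) ^ l * Pool.Agent.W497.FS.omega (link S T) := by
    intro T hT hH j l hj hl
    have hlinke : (∅ : Finset (Fin n)) ∈ link S T := by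
      rw [link, Finset.mem_filter]
      exact ⟨hempty, by simp, by simpa using hT⟩
    have h1 := hQ T hT ∅ hlinke (hheavy T hT ⟨j, by omega⟩ hH) l
    rw [Finset.powerset_empty, Finset.sum_singleton, Finset.card_empty, pow_zero, one_mul,
      Finset.union_empty] at h1
    have h2 := (hg T hT).1
    have e1 : 2 * m - T.card = 2 * l := by omega
    rw [e1] at h2
    have h3 := omega_of_gamma h2 (by
      intro F hF
      rw [link, Finset.mem_filter] at hF
      have h5 := hS.card_le _ hF.2.2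
      rw [Finset.card_union_of_disjoint hF.2.1] at h5
      omega)
    have h6 : (0 : ℚ) ≤ 4 ^ l * ((-1) ^ l * Pool.Agent.W497.FS.omega (link S T)) := by
      rw [h3]
      exact_mod_cast h1
    exact nonneg_of_mul_nonneg_right h6 (by positivity)
  refine ⟨?_, ?_⟩
  · have h1 := hcd ∅ hempty (fun v hv => absurd hv (Finset.notMem_empty v)) 0 m (by simp) (by simp)
    rwa [link_empty] at h1
  · exact sphere_ge hS hN fun T hT _ hH j l hj hl => hcd T hT hH j l hj hl

/-- The criterion, and all weights on the flag homology 5-spheres with a vertex from which no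
tetrahedron is far. -/
theorem result :
    (∀ (k : Type) [Field k] (n m : ℕ) (S : Finset (Finset (Fin n))), IsFlagSphere k (2 * m) S →
      (∀ F ∈ S, F.card + 4 = 2 * m → 5 * ((link S F).filter (fun G => G.card = 1)).card ≤
        ((link S F).filter (fun G => G.card = 2)).card + 16) →
      ∀ (w : Finset (Fin n) → ℕ) (N : Finset (Fin n) → ℚ), Orders S w N →
      ∀ P : Finset (Fin n) → Finset (Fin n) → Prop,
      (∀ F ∈ S, ∀ T ∈ link S F, P F T → F.card + 5 ≤ 2 * m → (T = ∅ → F.card + 6 ≤ 2 * m) →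
        ∃ v, insert v T ∈ link S F ∧ (∀ G, IsFar (link S F) v G → G.card ≤ 3) ∧
          (v ∉ T → P (insert v F) T) ∧ ((T = ∅ → F.card + 7 ≠ 2 * m) →
          (∀ E, IsFar (link S F) v E → E.card = 2 →
            P (F ∪ E) (T.filter (fun x => insert x (F ∪ E) ∈ S))) ∧
          (∀ R, IsFar (link S F) v R → R.card = 3 → ∀ t ∈ R,
            P (F ∪ R.erase t) (insert t (T.filter (fun x => insert x (F ∪ R) ∈ S)))))) →
      (∀ F ∈ S, Even F.card → Heavy w F → P F ∅) →
      0 ≤ (-1) ^ m * ∑ σ ∈ S, (-1 : ℚ) ^ σ.card / 2 ^ σ.card ∧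
      (-1) ^ m * ∑ σ ∈ S, (-1 : ℚ) ^ σ.card / 2 ^ σ.card ≤
        (-1) ^ m * ∑ σ ∈ S, (-1) ^ σ.card / N σ) ∧
    (∀ (k : Type) [Field k] (n : ℕ) (S : Finset (Finset (Fin n))), IsFlagSphere k 6 S →
      (∀ F ∈ S, F.card = 2 → 5 * ((link S F).filter (fun G => G.card = 1)).card ≤
        ((link S F).filter (fun G => G.card = 2)).card + 16) →
      (∃ v, ({v} : Finset (Fin n)) ∈ S ∧ ∀ G, IsFar S v G → G.card ≤ 3) →
      ∀ (w : Finset (Fin n) → ℕ) (N : Finset (Fin n) → ℚ), Orders S w N →
      0 ≤ -∑ σ ∈ S, (-1 : ℚ) ^ σ.card / 2 ^ σ.card ∧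
      -∑ σ ∈ S, (-1 : ℚ) ^ σ.card / 2 ^ σ.card ≤ -∑ σ ∈ S, (-1) ^ σ.card / N σ) := by
  refine ⟨fun k _ n m S hS h4 w N hN P hP hheavy =>
    criterion k n m S hS h4 w N hN P hP hheavy, ?_⟩
  intro k _ n S hS h4 ⟨v, hv1, hv2⟩ w N hN
  have h := criterion k n 3 S hS (fun F hF hc => h4 F hF (by omega)) w N hN
    (fun F T => T = ∅ ∨ 2 ≤ F.card) (by
      intro F hF T hT hc h5 h6
      have hT0 : T = ∅ := by
        rcases hc with h | h
        · exact h
        · omega
      have hF0 : F = ∅ := Finset.card_eq_zero.1 (by have := h6 hT0; omega)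
      subst hT0 hF0
      rw [link_empty]
      refine ⟨v, by rwa [insert_empty_eq], hv2, fun _ => Or.inl rfl, fun _ => ⟨fun E _ _ =>
        Or.inl (by simp), fun R _ hR t ht => Or.inr ?_⟩⟩
      rw [Finset.empty_union, Finset.card_erase_of_mem ht, hR])
    (fun F hF _ _ => Or.inl rfl)
  have e : (-1 : ℚ) ^ 3 = -1 := by norm_num
  rw [e, neg_one_mul, neg_one_mul] at h
  exact h

end Pool.Agent.Results.MP_375bfa_co.FarTetrahedraWeighted
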