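import Pool.Agent.Q288.CW.Red
import Pool.Agent.TH709.GG.Main

set_option autoImplicit false

/-!
# The flag complex inequality with Coxeter edge weights for glued and contracted spheres

`Cls d α H W` (see `Pool.Agent.TH709.GG.ClsDef`) says that the flag complex of the cliques of `H`
inside `W` belongs to the least class that contains the flag Eulerian complexes of rank at most
three and those of rank four with `f₁ - 5 f₀ + 16 ≥ 0` (by the theorem of Davis and Okun these are
all flag homology 3-spheres), and is closed under isomorphism, links, joins, edge subdivisions,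
inverse edge contractions, gluing two members along the links of two removed vertices, and under
passing from the vertex links to the complex if every facet contains a vertex which is not far from
any triangle.

For every member of rank `2 m` and all orders `N σ` of the groups `W_σ` (structure `Orders`) we show
`(-1)^m ∑ (-1)^|σ| / N σ ≥ (-1)^m ∑ (-1)^|σ| / 2^|σ| ≥ 0`: the weighted quantity is at least the
right-angled one, which has the sign `(-1)^m`.
-/

namespace Pool.Agent.Results.MP_375bfa_co.GluedSpheres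

open Pool.Agent.W497.FS Pool.Agent.TH709.GG Y365.FS Pool.Agent.Q288.CW

/-- The members of the class, and the flag homology spheres in the class. -/
theorem result :
    (∀ (m : ℕ) (α : Type) [DecidableEq α] (H : SimpleGraph α) (W : Finset α),
      Cls (2 * m) α H W → ∀ (w : Finset α → ℕ) (N : Finset α → ℚ), Orders (cl H W) w N →
        0 ≤ (-1) ^ m * ∑ σ ∈ cl H W, (-1 : ℚ) ^ σ.card / 2 ^ σ.card ∧
        (-1) ^ m * ∑ σ ∈ cl H W, (-1 : ℚ) ^ σ.card / 2 ^ σ.card ≤
          (-1) ^ m * ∑ σ ∈ cl H W, (-1) ^ σ.card / N σ) ∧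
    (∀ (k : Type) [Field k] (n m : ℕ) (S : Finset (Finset (Fin n))),
      IsFlagSphere k (2 * m) S → Cls (2 * m) (Fin n) (skel S) (vert S) →
      ∀ (w : Finset (Fin n) → ℕ) (N : Finset (Fin n) → ℚ), Orders S w N →
        0 ≤ (-1) ^ m * ∑ σ ∈ S, (-1 : ℚ) ^ σ.card / 2 ^ σ.card ∧
        (-1) ^ m * ∑ σ ∈ S, (-1 : ℚ) ^ σ.card / 2 ^ σ.card ≤
          (-1) ^ m * ∑ σ ∈ S, (-1) ^ σ.card / N σ) := by
  have main : ∀ (m : ℕ) (α : Type) [DecidableEq α] (H : SimpleGraph α) (W : Finset α),
      Cls (2 * m) α H W → ∀ (w : Finset α → ℕ) (N : Finset α → ℚ), Orders (cl H W) w N →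
        0 ≤ (-1) ^ m * ∑ σ ∈ cl H W, (-1 : ℚ) ^ σ.card / 2 ^ σ.card ∧
        (-1) ^ m * ∑ σ ∈ cl H W, (-1 : ℚ) ^ σ.card / 2 ^ σ.card ≤
          (-1) ^ m * ∑ σ ∈ cl H W, (-1) ^ σ.card / N σ := by
    intro m α _ H W hC w N hN
    have hTM := hC.tm
    have hlam : lam H W = ∑ σ ∈ cl H W, (-1 : ℚ) ^ σ.card / 2 ^ σ.card := by
      rw [lam, fe]
      refine Finset.sum_congr rfl (fun σ _ => ?_)
      rw [← div_pow]
    have hnn : ∀ T ∈ cl H W, ∀ j l, T.card = 2 * j → m = j + l →
        0 ≤ (-1) ^ l * lam H (lkF H W T) := by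
      intro T hT j l hj hl
      have h1 := hTM.mem T ∅ (Finset.disjoint_empty_right T) (by rwa [Finset.union_empty])
        (2 * l) (by omega)
      rw [D_empty] at h1
      exact lam_nonneg_of_GT h1
    have hlk0 : lkF H W ∅ = W := by
      ext x; rw [mem_lkF]; simp
    rw [← hlam]
    refine ⟨?_, ?_⟩
    · have h2 := hnn ∅ empty_mem_cl 0 m (by simp) (by simp)
      rwa [hlk0] at h2
    · exact weighted_ge (hN.good fun T hT U hU => cl_of_subset hT hU) hN.empty hTM.le
        fun T hT _ _ j l hj hl => hnn T hT j l hj hl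
  refine ⟨main, ?_⟩
  intro k _ n m S hS hC w N hN
  have h := main m (Fin n) (skel S) (vert S) hC w N (by rw [hS.cl_eq]; exact hN)
  rwa [hS.cl_eq] at h

end Pool.Agent.Results.MP_375bfa_co.GluedSpheres
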