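import Pool.Agent.Q24.SG.Weight

/-!
# The flag complex inequality with Coxeter edge weights, by `ℓ²`-homology of the links of the heavy faces

Let the flag complex `S` of the finite graph `G` be a real homology sphere of dimension `2 m - 1` (`HSph (2 m) G`), with
edge weights `w e ≥ 2`. A face `T` is heavy if each of its vertices lies in an edge of weight at least `3` inside `T`;
the empty face is heavy, and if all weights are `2` it is the only heavy face. The numbers `N σ` are the orders of
the Coxeter groups `W_σ`, or any numbers with the properties in the structure `Orders`.

The class `AR n` contains the order complexes of the Gorenstein* posets of length `n` (for example the barycentric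
subdivisions of the triangulated `(n-1)`-spheres), the complexes with few vertices, and the complexes of even
dimension of the right parity in which the vertices with bad links span a member of the class; it is closed under
full subcomplexes, joins, gluings, edge subdivisions and the other operations listed in its definition.

The proof uses the theorem that the `ℓ²`-homology of the Davis complexes of the right-angled Coxeter groups of the
links vanishes outside the middle degree, and the reduction of the weighted inequality to the links of the heavy
faces (`Pool.Agent.Q288.CW.Red`).
-/

set_option autoImplicit false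

namespace Pool.Agent.Results.MP_375bfa_co.LinksOfHeavyFaces

open Pool.Agent.W907.SG Pool.Agent.TH652.Above Pool.Agent.Q24.SG Pool.Agent.W497.FS Pool.Agent.Q288.CW

/-- Let the flag complex of `G` be a real homology `(2 m - 1)`-sphere with edge weights such that the link of every
heavy face `T` of even size `2 m - 2 l` (the empty face included) is in the class `AR (2 l)`. Then the weighted
quantity `(-1)^m ∑ (-1)^|σ| / #W_σ` is at least the right-angled one `(-1)^m ∑ (-1)^|σ| / 2^|σ|`, and this is not
negative. The sums are over all faces, the empty one included. No condition is imposed on the links of the other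
faces. -/
theorem result : ∀ (m : ℕ) (V : Type) [Fintype V] [LinearOrder V] (G : SimpleGraph V), HSph (2 * m) G →
    ∀ (w : Finset V → ℕ) (N : Finset V → ℚ), Orders (cl G Finset.univ) w N →
    (∀ T : Finset V, G.IsClique (T : Set V) → Heavy w T → ∀ l, 2 * l + T.card = 2 * m →
      AR (2 * l) (G.induce {u | ∀ t ∈ T, G.Adj t u})) →
    0 ≤ (-1) ^ m * ∑ σ ∈ cl G Finset.univ, (-1 : ℚ) ^ σ.card / 2 ^ σ.card ∧
    (-1) ^ m * ∑ σ ∈ cl G Finset.univ, (-1 : ℚ) ^ σ.card / 2 ^ σ.card ≤
      (-1) ^ m * ∑ σ ∈ cl G Finset.univ, (-1) ^ σ.card / N σ := by
  intro m V _ _ G hS w N hN hA
  exact weighted hS w N hN hA

end Pool.Agent.Results.MP_375bfa_co.LinksOfHeavyFaces
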